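import Mathlib
import Pool.Agent.Helper278.DefsG
import Pool.Agent.Helper278.CEStmt
import Pool.Agent.Helper436.SM.Stmt
import Pool.Agent.Helper436.SN.StmtG
import Pool.Agent.Helper159.GM.Stmt
import Pool.Agent.H146R2.SD.FIN

set_option autoImplicit false

namespace Pool.Agent.Results.MP_a6af55_an.Continuum

open Pool.Agent.Helper278 Pool.Agent.Helper436.SM Pool.Agent.Helper159.GM

universe w

/-- For every nonprincipal ultrafilter `U` on `ℕ` there is a family `N t`, indexed by the real
numbers `t`, of separable Connes embeddable super McDuff II₁ factors such that `N s` and `N t` are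
not elementarily equivalent for `s ≠ t`. -/
theorem result (U : Ultrafilter ℕ) (hU : ∀ n, {n} ∉ U) :
    ∃ N : ℝ → VNA, (∀ t, IsIIOneFactor (N t).N (N t).τ ∧
      Pool.Agent.Helper436.SN.IsSeparable (N t).τ ∧ ConnesEmbeddable U (N t).τ ∧
      SuperMcDuff U (N t).τ) ∧ ∀ s t, s ≠ t → ¬ ElemEquiv.{w} (N s).τ (N t).τ :=
  Pool.Agent.H146R2.SD.exists_family.{w} U hU

end Pool.Agent.Results.MP_a6af55_an.Continuum
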